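import Pool.Agent.Helper4.HorAux

/-!
Horizontal saddle point (piece of the derivatives-of-xi packages of helper85 / helper75).

`h` is entire and on the rectangle `a0 ≤ Re u ≤ Re b`, `|Im u - Im b| ≤ q` zero-free with
`logDeriv h = L (1 + O(η))`.  The integral of `h (b - z) z ^ κ` over a straight segment `z = z0 s`,
`0 ≤ s ≤ S`, through the saddle `z0` is bounded below.
-/

set_option autoImplicit false
set_option maxHeartbeats 2000000

open Complex Filter Topology Set MeasureTheory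

namespace Pool.Agent.Helper4.Hor

open Pool.Agent.Helper85.DQ (ld_lip growth gauss_seg exists_saddle)

/-- the integrand near the saddle -/
lemma near {h : ℂ → ℂ} {b z0 : ℂ} {L ρ η r δ : ℝ} {κ : ℕ} {U : Set ℂ} (hU : IsOpen U) (hρ : 0 < ρ) (hL : 0 < L)
    (hκ : (κ : ℝ) = ρ * L) (hη : 0 < η) (hr : 0 < r) (hδ : 0 < δ) (hδ1 : δ ≤ 1 / 40) (hηr : 160 * ρ * η ≤ r)
    (hh : Differentiable ℂ h) (hz0n : ‖z0‖ ≤ 2 * ρ)
    (hUne : ∀ u ∈ U, h u ≠ 0) (hUl : ∀ u ∈ U, ‖logDeriv h u - L‖ ≤ η * L)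
    (hball : ∀ τ : ℝ, |τ| ≤ δ → Metric.closedBall (b - z0 * (1 + τ)) r ⊆ U)
    (hsad : z0 * logDeriv h (b - z0) = κ) {x : ℝ} (hx : |x| ≤ δ) :
    ∃ E : ℂ, ‖E + ((κ / 2 * x ^ 2 : ℝ) : ℂ)‖ ≤ κ / 20 * x ^ 2 ∧
      h (b - z0 * (1 + x)) * (1 + x : ℂ) ^ κ = h (b - z0) * cexp E := by
  set g : ℂ → ℂ := fun ζ => h (b - z0 * (1 - I * ζ)) with hg
  have hgd : Differentiable ℂ g := hh.comp (by fun_prop)
  have hinner : ∀ ζ : ℂ, HasDerivAt (fun ζ : ℂ => b - z0 * (1 - I * ζ)) (z0 * I) ζ := by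
    intro ζ
    have h1 : HasDerivAt (fun ζ : ℂ => 1 - I * ζ) (-I) ζ := by
      have := ((hasDerivAt_id ζ).const_mul I).const_sub 1
      simpa using this
    have h2 := (h1.const_mul z0).const_sub b
    have e : -(z0 * -I) = z0 * I := by ring
    rw [e] at h2
    exact h2
  have hgl : ∀ ζ : ℂ, logDeriv g ζ = z0 * I * logDeriv h (b - z0 * (1 - I * ζ)) := by
    intro ζ
    have h1 : HasDerivAt g (deriv h (b - z0 * (1 - I * ζ)) * (z0 * I)) ζ :=
      HasDerivAt.comp ζ (hh (b - z0 * (1 - I * ζ))).hasDerivAt (hinner ζ)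
    rw [logDeriv_apply, h1.deriv, logDeriv_apply]
    simp only [hg]
    ring
  have harg : ∀ τ : ℝ, b - z0 * (1 - I * (0 + τ * I)) = b - z0 * (1 + τ) := by
    intro τ
    have : I * (0 + (τ : ℂ) * I) = -τ := by
      rw [zero_add, mul_comm, mul_assoc, I_mul_I]; ring
    rw [this]; ring
  set s : Set ℂ := {u : ℂ | ∃ τ : ℝ, |τ| ≤ δ ∧ u = b - z0 * (1 + τ)} with hs
  have hsc : Convex ℝ s := by
    rintro u1 ⟨τ1, h1, rfl⟩ u2 ⟨τ2, h2, rfl⟩ p q hp hq hpq
    refine ⟨p * τ1 + q * τ2, ?_, ?_⟩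
    · rw [abs_le] at h1 h2 ⊢
      constructor <;> nlinarith [h1.1, h1.2, h2.1, h2.2]
    · have hpq' : (p : ℂ) + q = 1 := by rw [← ofReal_add, hpq]; simp
      simp only [real_smul]
      push_cast
      linear_combination (b - z0) * hpq'
  have hsU : ∀ z ∈ s, Metric.closedBall z r ⊆ U := by
    rintro u ⟨τ, hτ, rfl⟩
    exact hball τ hτ
  have hmem : ∀ τ : ℝ, |τ| ≤ δ → b - z0 * (1 + τ) ∈ s := fun τ hτ => ⟨τ, hτ, rfl⟩
  have hmem0 : b - z0 ∈ s := ⟨0, by rw [abs_zero]; exact hδ.le, by simp⟩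
  obtain ⟨R, hR, hfR⟩ := seg (f := g) (s := 0) (T := δ) (B := 4 * ρ ^ 2 * (η * L / r))
    (by positivity) hδ hgd (fun τ hτ => by
      simp only [hg]
      rw [harg]
      exact hUne _ (hsU _ (hmem τ hτ) (Metric.mem_closedBall_self hr.le)))
    (fun τ hτ => by
      rw [hgl, hgl, harg, mul_zero, sub_zero, mul_one, ← mul_sub, norm_mul, norm_mul, norm_I, mul_one]
      have h1 := ld_lip (f := h) hU (L := L) (B := η * L) (r := r) hr hh.differentiableOn hUne hUl hsc hsU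
        hmem0 (hmem τ hτ)
      have h2 : ‖b - z0 * (1 + (τ : ℂ)) - (b - z0)‖ = ‖z0‖ * |τ| := by
        have : b - z0 * (1 + (τ : ℂ)) - (b - z0) = -(z0 * τ) := by ring
        rw [this, norm_neg, norm_mul, Complex.norm_real, Real.norm_eq_abs]
      rw [h2] at h1
      calc ‖z0‖ * ‖logDeriv h (b - z0 * (1 + (τ : ℂ))) - logDeriv h (b - z0)‖ ≤
          (2 * ρ) * (η * L / r * ((2 * ρ) * |τ|)) := by
            gcongr
            refine h1.trans ?_
            gcongr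
        _ = 4 * ρ ^ 2 * (η * L / r) * |τ| := by ring) x hx
  have hκ0 : (0 : ℝ) ≤ κ := Nat.cast_nonneg _
  have hxle : ‖(x : ℂ)‖ ≤ 1 / 2 := by
    rw [Complex.norm_real, Real.norm_eq_abs]; linarith
  obtain ⟨R2, hR2, hpow⟩ := pow_expand hxle κ
  rw [Complex.norm_real, Real.norm_eq_abs] at hR2
  have hx2 : 0 ≤ x ^ 2 := sq_nonneg x
  have hxabs : |x| ^ 2 = x ^ 2 := sq_abs x
  refine ⟨R + R2 - ((κ / 2 * x ^ 2 : ℝ) : ℂ), ?_, ?_⟩
  · rw [sub_add_cancel]
    have b1 : ‖R‖ ≤ κ / 40 * x ^ 2 := by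
      refine hR.trans ?_
      apply mul_le_mul_of_nonneg_right _ hx2
      have h1 : 4 * ρ ^ 2 * (η * L / r) = (ρ * L) * (160 * ρ * η / r) / 40 := by
        field_simp
        ring
      rw [h1, ← hκ]
      have h2 : 160 * ρ * η / r ≤ 1 := by rw [div_le_one hr]; exact hηr
      calc (κ : ℝ) * (160 * ρ * η / r) / 40 ≤ κ * 1 / 40 := by gcongr
        _ = κ / 40 := by ring
    have b2 : ‖R2‖ ≤ κ / 40 * x ^ 2 := by
      refine hR2.trans ?_
      have h3 : |x| ^ 3 ≤ x ^ 2 * (1 / 40) := by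
        calc |x| ^ 3 = |x| ^ 2 * |x| := by ring
          _ ≤ |x| ^ 2 * (1 / 40) := by gcongr; linarith
          _ = _ := by rw [hxabs]
      calc (κ : ℝ) * |x| ^ 3 ≤ κ * (x ^ 2 * (1 / 40)) := by gcongr
        _ = _ := by ring
    calc ‖R + R2‖ ≤ ‖R‖ + ‖R2‖ := norm_add_le _ _
      _ ≤ κ / 40 * x ^ 2 + κ / 40 * x ^ 2 := by linarith
      _ = _ := by ring
  · have h1 := hfR
    simp only [hg] at h1
    rw [harg] at h1
    rw [h1, hpow]
    have h0 : b - z0 * (1 - I * 0) = b - z0 := by ring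
    rw [h0, mul_assoc, ← Complex.exp_add]
    congr 2
    have h2 : logDeriv g 0 = z0 * I * logDeriv h (b - z0) := by rw [hgl, h0]
    simp only [hg] at h2
    rw [h2]
    push_cast
    have h3 : I * (x : ℂ) * (z0 * I * logDeriv h (b - z0)) = - (x * (z0 * logDeriv h (b - z0))) := by
      linear_combination (x * (z0 * logDeriv h (b - z0))) * I_sq
    rw [h3, hsad]
    ring

/-- the integrand away from the saddle -/
lemma far {h : ℂ → ℂ} {b z0 : ℂ} {L ρ η S : ℝ} {κ : ℕ} (hL : 0 < L)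
    (hκ : (κ : ℝ) = ρ * L) (hη : 0 < η) (hh : Differentiable ℂ h) (hz0 : ‖z0 - ρ‖ ≤ 2 * ρ * η)
    (hz0n : ‖z0‖ ≤ 2 * ρ) (hS : 1 ≤ S)
    (hreg : ∀ s : ℝ, 0 ≤ s → s ≤ S → h (b - z0 * s) ≠ 0 ∧ ‖logDeriv h (b - z0 * s) - L‖ ≤ η * L)
    {s : ℝ} (hs0 : 0 < s) (hsS : s ≤ S) :
    ‖h (b - z0 * s) * (s : ℂ) ^ κ‖ ≤
      ‖h (b - z0)‖ * Real.exp (κ * (-(Real.sqrt s - 1) ^ 2 + 4 * η * |s - 1|)) := by
  have hseg : ∀ z ∈ segment ℝ (b - z0) (b - z0 * s), ∃ s' : ℝ, 0 ≤ s' ∧ s' ≤ S ∧ z = b - z0 * s' := by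
    intro z hz
    rw [segment_eq_image'] at hz
    obtain ⟨θ, hθ, rfl⟩ := hz
    refine ⟨1 + θ * (s - 1), ?_, ?_, ?_⟩
    · nlinarith [hθ.1, hθ.2]
    · nlinarith [hθ.1, hθ.2]
    · simp only [real_smul]
      push_cast
      ring
  have hg := growth (g := h) (z1 := b - z0) (z2 := b - z0 * s) (L := L) (M := η * L) (fun z _ => hh z)
    (fun z hz => by
      obtain ⟨s', h1, h2, rfl⟩ := hseg z hz
      exact (hreg s' h1 h2).1)
    (fun z hz => by
      obtain ⟨s', h1, h2, rfl⟩ := hseg z hz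
      exact (hreg s' h1 h2).2)
  have e1 : (b - z0 * s).re - (b - z0).re = z0.re * (1 - s) := by simp; ring
  have e2 : ‖b - z0 * s - (b - z0)‖ = ‖z0‖ * |s - 1| := by
    have : b - z0 * s - (b - z0) = -(z0 * ((s - 1 : ℝ) : ℂ)) := by push_cast; ring
    rw [this, norm_neg, norm_mul, Complex.norm_real, Real.norm_eq_abs]
  rw [e1, e2] at hg
  have hre : |z0.re - ρ| ≤ 2 * ρ * η := by
    have h1 := Complex.abs_re_le_norm (z0 - ρ)
    simp only [sub_re, ofReal_re] at h1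
    linarith
  have hκ0 : (0 : ℝ) ≤ κ := Nat.cast_nonneg _
  have habs : 0 ≤ |s - 1| := abs_nonneg _
  have b1 : L * (z0.re * (1 - s)) ≤ κ * (1 - s) + 2 * η * κ * |s - 1| := by
    have h1 : L * (z0.re * (1 - s)) - κ * (1 - s) = L * ((z0.re - ρ) * (1 - s)) := by rw [hκ]; ring
    have h2 : (z0.re - ρ) * (1 - s) ≤ 2 * ρ * η * |s - 1| := by
      calc (z0.re - ρ) * (1 - s) ≤ |(z0.re - ρ) * (1 - s)| := le_abs_self _
        _ = |z0.re - ρ| * |s - 1| := by rw [abs_mul, abs_sub_comm 1 s]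
        _ ≤ _ := by gcongr
    have h3 : L * ((z0.re - ρ) * (1 - s)) ≤ L * (2 * ρ * η * |s - 1|) := by gcongr
    rw [hκ] at h1 ⊢
    nlinarith
  have b2 : η * L * (‖z0‖ * |s - 1|) ≤ 2 * η * κ * |s - 1| := by
    rw [hκ]
    calc η * L * (‖z0‖ * |s - 1|) ≤ η * L * (2 * ρ * |s - 1|) := by gcongr
      _ = _ := by ring
  have b3 : Real.log s ≤ 2 * (Real.sqrt s - 1) := by
    have h1 : Real.log s = 2 * Real.log (Real.sqrt s) := by
      rw [Real.log_sqrt hs0.le]; ring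
    rw [h1]
    have := Real.log_le_sub_one_of_pos (Real.sqrt_pos.2 hs0)
    linarith
  have b4 : Real.log s + (1 - s) ≤ -(Real.sqrt s - 1) ^ 2 := by
    have := Real.sq_sqrt hs0.le
    nlinarith
  have e3 : ‖(s : ℂ) ^ κ‖ = Real.exp (κ * Real.log s) := by
    rw [norm_pow, Complex.norm_real, Real.norm_of_nonneg hs0.le, Real.exp_nat_mul, Real.exp_log hs0]
  rw [norm_mul, e3]
  calc ‖h (b - z0 * s)‖ * Real.exp (κ * Real.log s) ≤
      ‖h (b - z0)‖ * Real.exp (L * (z0.re * (1 - s)) + η * L * (‖z0‖ * |s - 1|)) *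
        Real.exp (κ * Real.log s) := by gcongr
    _ = ‖h (b - z0)‖ * Real.exp (L * (z0.re * (1 - s)) + η * L * (‖z0‖ * |s - 1|) + κ * Real.log s) := by
        rw [mul_assoc, ← Real.exp_add]
    _ ≤ _ := by
        gcongr
        have h4 : κ * (Real.log s + (1 - s)) ≤ κ * (-(Real.sqrt s - 1) ^ 2) := by gcongr
        nlinarith

/-- splitting the integral -/
lemma assemble {F : ℝ → ℂ} (hFc : Continuous F) {δ S S1 A T : ℝ} (hδ : 0 < δ) (hδ1 : δ ≤ 1 / 40)
    (hSge : 1 + δ ≤ S) (hSle : S ≤ S1) (hT0 : 0 < T) (hmain : 2 * A ≤ ‖∫ s in (1 - δ)..(1 + δ), F s‖)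
    (hfar : ∀ s : ℝ, 0 < s → s ≤ S → δ ≤ |s - 1| → ‖F s‖ ≤ T) (hTsmall : T * S1 ≤ A) :
    A ≤ ‖∫ s in (0 : ℝ)..S, F s‖ := by
  have hFi : ∀ a c : ℝ, IntervalIntegrable F volume a c := fun a c => hFc.intervalIntegrable a c
  have hleft : ‖∫ s in (0 : ℝ)..(1 - δ), F s‖ ≤ T * (1 - δ) := by
    have h3 := intervalIntegral.norm_integral_le_of_norm_le_const (a := 0) (b := 1 - δ) (f := F) (C := T) ?_
    · rw [sub_zero, abs_of_nonneg (by linarith)] at h3
      exact h3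
    · intro s hs
      rw [uIoc_of_le (by linarith)] at hs
      apply hfar s hs.1 (by linarith [hs.2])
      rw [abs_sub_comm, abs_of_nonneg (by linarith [hs.2])]
      linarith [hs.2]
  have hright : ‖∫ s in (1 + δ)..S, F s‖ ≤ T * (S - (1 + δ)) := by
    have h3 := intervalIntegral.norm_integral_le_of_norm_le_const (a := 1 + δ) (b := S) (f := F) (C := T) ?_
    · rw [abs_of_nonneg (by linarith)] at h3
      exact h3
    · intro s hs
      rw [uIoc_of_le hSge] at hs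
      apply hfar s (by linarith [hs.1]) hs.2
      rw [abs_of_nonneg (by linarith [hs.1])]
      linarith [hs.1]
  have hsplit : ∫ s in (0 : ℝ)..S, F s = (∫ s in (0 : ℝ)..(1 - δ), F s) + (∫ s in (1 - δ)..(1 + δ), F s) +
      ∫ s in (1 + δ)..S, F s := by
    rw [intervalIntegral.integral_add_adjacent_intervals (hFi _ _) (hFi _ _),
      intervalIntegral.integral_add_adjacent_intervals (hFi _ _) (hFi _ _)]
  have e1 : ∫ s in (1 - δ)..(1 + δ), F s = (∫ s in (0 : ℝ)..S, F s) - (∫ s in (0 : ℝ)..(1 - δ), F s) -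
      ∫ s in (1 + δ)..S, F s := by rw [hsplit]; ring
  have hfin : ‖∫ s in (1 - δ)..(1 + δ), F s‖ ≤ ‖∫ s in (0 : ℝ)..S, F s‖ + ‖∫ s in (0 : ℝ)..(1 - δ), F s‖ +
      ‖∫ s in (1 + δ)..S, F s‖ := by
    rw [e1]
    exact (norm_sub_le _ _).trans (by gcongr; exact norm_sub_le _ _)
  have h5 : T * S ≤ T * S1 := by gcongr
  have h6 : 0 < T * δ := by positivity
  have h7 : T * (1 - δ) = T - T * δ := by ring
  have h8 : T * (S - (1 + δ)) = T * S - T - T * δ := by ring
  linarith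

end Pool.Agent.Helper4.Hor

namespace Pool.Agent.Helper85.DQ

open Pool.Agent.Helper4.Hor

set_option maxHeartbeats 20000000 in
theorem saddle_low {ρ1 ρ2 q : ℝ} (hρ1 : 0 < ρ1) (h12 : ρ1 ≤ ρ2) (hq : 0 < q) :
    ∃ η0 > 0, ∃ L0 : ℝ, 1 ≤ L0 ∧ ∀ (h : ℂ → ℂ) (b : ℂ) (a0 L ρ η : ℝ) (κ : ℕ),
      Differentiable ℂ h → 0 < η → η ≤ η0 → L0 ≤ L → ρ1 ≤ ρ → ρ ≤ ρ2 → (κ : ℝ) = ρ * L →
      a0 + q ≤ b.re - ρ → b.re - a0 ≤ ρ2 + 1 →
      (∀ u : ℂ, a0 ≤ u.re → u.re ≤ b.re → |u.im - b.im| ≤ q → h u ≠ 0 ∧ ‖logDeriv h u - L‖ ≤ η * L) →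
      ∃ z0 : ℂ, ‖z0 - ρ‖ ≤ 2 * ρ * η ∧ ∀ S : ℝ, S * z0.re = b.re - a0 →
        ‖h (b - z0)‖ / (2 * Real.sqrt κ) ≤ ‖∫ s in (0 : ℝ)..S, h (b - z0 * s) * (s : ℂ) ^ κ‖ := by
  have hρ2 : 0 < ρ2 := lt_of_lt_of_le hρ1 h12
  set S1 : ℝ := 2 * (ρ2 + 1) / ρ1 + 1 with hS1
  have hS1' : 1 < S1 := by
    have : 0 < 2 * (ρ2 + 1) / ρ1 := by positivity
    linarith
  set δ : ℝ := min (1 / 40) (q / (8 * ρ2)) with hδdef
  have hδ : 0 < δ := by positivity
  have hδ1 : δ ≤ 1 / 40 := min_le_left _ _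
  have hδ2 : δ ≤ q / (8 * ρ2) := min_le_right _ _
  have hδ2' : 8 * ρ2 * δ ≤ q := by
    rw [le_div_iff₀ (by positivity)] at hδ2; linarith
  set r : ℝ := min q ρ1 / 4 with hr
  have hr0 : 0 < r := by positivity
  have hrq : r ≤ q / 4 := by rw [hr]; gcongr; exact min_le_left _ _
  have hrρ : r ≤ ρ1 / 4 := by rw [hr]; gcongr; exact min_le_right _ _
  set ω : ℝ := δ / (Real.sqrt S1 + 1) with hω
  have hω0 : 0 < ω := by positivity
  -- the size of η
  set η0 : ℝ := min (min (1 / 1000) (r / (160 * ρ2))) (min (q / (8 * ρ2 * S1)) (ω ^ 2 / (8 * S1))) with hη0def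
  have hη00 : 0 < η0 := by positivity
  obtain ⟨K0, hK01, hK0⟩ := ev_small (c := ω ^ 2 / 2) (K := 2 * S1) (ε := 1) (by positivity) one_pos
  set L0 : ℝ := max (max 1 (K0 / ρ1)) (1 / (δ ^ 2 * ρ1)) with hL0
  refine ⟨η0, hη00, L0, (le_max_left _ _).trans (le_max_left _ _), ?_⟩
  intro h b a0 L ρ η κ hh hη hηη hL h1 h2 hκ hab hab2 hreg
  have hηa : η ≤ 1 / 1000 := hηη.trans ((min_le_left _ _).trans (min_le_left _ _))
  have hηb : η ≤ r / (160 * ρ2) := hηη.trans ((min_le_left _ _).trans (min_le_right _ _))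
  have hηc : η ≤ q / (8 * ρ2 * S1) := hηη.trans ((min_le_right _ _).trans (min_le_left _ _))
  have hηd : η ≤ ω ^ 2 / (8 * S1) := hηη.trans ((min_le_right _ _).trans (min_le_right _ _))
  rw [le_div_iff₀ (by positivity)] at hηb hηc hηd
  have hLa : 1 ≤ L := (((le_max_left _ _).trans (le_max_left _ _)).trans hL : _)
  have hLb : K0 / ρ1 ≤ L := ((le_max_right _ _).trans (le_max_left _ _)).trans hL
  have hLc : 1 / (δ ^ 2 * ρ1) ≤ L := (le_max_right _ _).trans hL
  rw [div_le_iff₀ (by positivity)] at hLb hLc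
  have hLpos : 0 < L := by linarith
  have hρ : 0 < ρ := by linarith
  have hρη : 0 < ρ * η := by positivity
  have hρη2 : ρ * η ≤ ρ2 * η := by gcongr
  have hS10 : 0 < S1 := by linarith
  have hηc' : ρ * η * S1 ≤ q / 8 := by
    have : ρ * η * S1 ≤ ρ2 * η * S1 := by gcongr
    linarith
  have hηc'' : ρ * η ≤ q / 8 := by
    have : ρ * η * 1 ≤ ρ * η * S1 := by gcongr
    linarith
  have hηb' : 160 * ρ * η ≤ r := by linarith
  have hρη3 : ρ * η ≤ ρ * (1 / 1000) := by gcongr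
  -- the saddle point
  set d : ℝ := min q ρ1 with hd
  have hd0 : 0 < d := by positivity
  have hdq : d ≤ q := min_le_left _ _
  have hdρ : d ≤ ρ1 := min_le_right _ _
  have hrd : r = d / 4 := rfl
  obtain ⟨z0, hz0, hsad0⟩ := exists_saddle (f := fun z => (h (b - z))⁻¹) (ρ := ρ) (L := L) (ε := η) (d := d)
    (κ := κ) hρ hLpos hκ hd0 hη (by linarith) (by linarith) (fun z hz => by
      have h3 := (Complex.abs_re_le_norm (z - ρ)).trans_lt hz
      have h4 := (Complex.abs_im_le_norm (z - ρ)).trans_lt hz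
      simp only [sub_re, ofReal_re, sub_im, ofReal_im, sub_zero] at h3 h4
      rw [abs_lt] at h3
      have h5 := hreg (b - z) (by simp only [sub_re]; linarith [h3.1, h3.2])
        (by simp only [sub_re]; linarith [h3.1, h3.2])
        (by
          simp only [sub_im]
          have : b.im - z.im - b.im = - z.im := by ring
          rw [this, abs_neg]
          linarith)
      have h6 : HasDerivAt (fun z => h (b - z)) (-deriv h (b - z)) z := by
        have := (hh (b - z)).hasDerivAt.comp_const_sub b z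
        exact this
      have h7 : HasDerivAt (fun z => (h (b - z))⁻¹) (-(-deriv h (b - z)) / (h (b - z)) ^ 2) z := h6.inv h5.1
      refine ⟨h7.differentiableAt, inv_ne_zero h5.1, ?_⟩
      have h8 : logDeriv (fun z => (h (b - z))⁻¹) z = logDeriv h (b - z) := by
        rw [logDeriv_apply, h7.deriv, logDeriv_apply]
        have := h5.1
        field_simp
      rw [h8]
      exact h5.2)
  have hre : |z0.re - ρ| ≤ 2 * ρ * η := by
    have h1 := Complex.abs_re_le_norm (z0 - ρ)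
    simp only [sub_re, ofReal_re] at h1
    linarith
  have him : |z0.im| ≤ 2 * ρ * η := by
    have h1 := Complex.abs_im_le_norm (z0 - ρ)
    simp only [sub_im, ofReal_im, sub_zero] at h1
    linarith
  have hre' := abs_le.1 hre
  have hz0n : ‖z0‖ ≤ 2 * ρ := by
    have : z0 = (z0 - ρ) + (ρ : ℂ) := by ring
    rw [this]
    refine (norm_add_le _ _).trans ?_
    rw [Complex.norm_real, Real.norm_of_nonneg hρ.le]
    linarith
  have hz0re : ρ * (998 / 1000) ≤ z0.re := by linarith [hre'.1]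
  have hz0re2 : z0.re ≤ ρ * (1 + 2 * η) := by linarith [hre'.2]
  have hz0pos : 0 < z0.re := by linarith
  -- the saddle point in terms of `h`
  have hregz : ∀ z : ℂ, ‖z - ρ‖ < d → h (b - z) ≠ 0 ∧ ‖logDeriv h (b - z) - L‖ ≤ η * L := by
    intro z hz
    have h3 := (Complex.abs_re_le_norm (z - ρ)).trans_lt hz
    have h4 := (Complex.abs_im_le_norm (z - ρ)).trans_lt hz
    simp only [sub_re, ofReal_re, sub_im, ofReal_im, sub_zero] at h3 h4
    rw [abs_lt] at h3
    exact hreg (b - z) (by simp only [sub_re]; linarith [h3.1, h3.2])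
        (by simp only [sub_re]; linarith [h3.1, h3.2])
        (by
          simp only [sub_im]
          have : b.im - z.im - b.im = - z.im := by ring
          rw [this, abs_neg]
          linarith)
  have hz0d : ‖z0 - ρ‖ < d := by
    refine hz0.trans_lt ?_
    have : 160 * (ρ * η) ≤ d / 4 := by rw [← hrd]; linarith
    linarith
  have hsad : z0 * logDeriv h (b - z0) = κ := by
    have h5 := hregz z0 hz0d
    have h6 : HasDerivAt (fun z => h (b - z)) (-deriv h (b - z0)) z0 := by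
      have := (hh (b - z0)).hasDerivAt.comp_const_sub b z0
      exact this
    have h7 : HasDerivAt (fun z => (h (b - z))⁻¹) (-(-deriv h (b - z0)) / (h (b - z0)) ^ 2) z0 := h6.inv h5.1
    have h8 : logDeriv (fun z => (h (b - z))⁻¹) z0 = logDeriv h (b - z0) := by
      rw [logDeriv_apply, h7.deriv, logDeriv_apply]
      have := h5.1
      field_simp
    rw [← h8]
    exact_mod_cast hsad0
  have hhz0 : h (b - z0) ≠ 0 := (hregz z0 hz0d).1
  have hM0 : 0 < ‖h (b - z0)‖ := norm_pos_iff.2 hhz0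
  refine ⟨z0, hz0, fun S hS => ?_⟩
  -- bounds of S
  have hSle : S ≤ S1 := by
    have h3 : S * z0.re ≤ ρ2 + 1 := by rw [hS]; exact hab2
    have h4 : S = (S * z0.re) / z0.re := by field_simp
    rw [h4]
    have h5 : ρ1 / 2 ≤ z0.re := by linarith
    have h6 : (S * z0.re) / z0.re ≤ (ρ2 + 1) / (ρ1 / 2) := by gcongr
    have h7 : (ρ2 + 1) / (ρ1 / 2) = 2 * (ρ2 + 1) / ρ1 := by field_simp
    rw [h7] at h6
    linarith
  have hSge : 1 + δ ≤ S := by
    by_contra hcon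
    push Not at hcon
    have h3 : ρ + q ≤ S * z0.re := by rw [hS]; linarith
    have h4 : S * z0.re ≤ (1 + δ) * (ρ * (1 + 2 * η)) := by
      calc S * z0.re ≤ (1 + δ) * z0.re := by gcongr
        _ ≤ _ := by gcongr
    have h5 : ρ * δ ≤ q / 8 := by
      have : ρ * δ ≤ ρ2 * δ := by gcongr
      linarith
    have h7 : η ≤ 1 := by linarith
    have h6 : ρ * δ * η ≤ q / 8 * 1 := by gcongr
    linarith
  have hSpos : 0 < S := by linarith
  -- the segment lies in the region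
  have hregs : ∀ s : ℝ, 0 ≤ s → s ≤ S → h (b - z0 * s) ≠ 0 ∧ ‖logDeriv h (b - z0 * s) - L‖ ≤ η * L := by
    intro s hs0 hsS
    apply hreg
    · simp only [sub_re, mul_re, ofReal_re, ofReal_im, mul_zero, sub_zero]
      have : z0.re * s ≤ z0.re * S := by gcongr
      linarith
    · simp only [sub_re, mul_re, ofReal_re, ofReal_im, mul_zero, sub_zero]
      have : 0 ≤ z0.re * s := by positivity
      linarith
    · simp only [sub_im, mul_im, ofReal_re, ofReal_im, mul_zero, zero_add]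
      have h3 : b.im - z0.im * s - b.im = - (z0.im * s) := by ring
      rw [h3, abs_neg, abs_mul, abs_of_nonneg hs0]
      calc |z0.im| * s ≤ 2 * ρ * η * S1 := by
            gcongr
            linarith
        _ ≤ q := by linarith
  set F : ℝ → ℂ := fun s => h (b - z0 * s) * (s : ℂ) ^ κ with hF
  have hFc : Continuous F := by
    simp only [hF]
    exact (hh.continuous.comp (by fun_prop)).mul (by fun_prop)
  -- the main part
  have hκ0 : 0 < (κ : ℝ) := by rw [hκ]; positivity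
  have hκδ : 1 ≤ (κ : ℝ) * δ ^ 2 := by
    rw [hκ]
    have : L * (δ ^ 2 * ρ1) ≤ L * (δ ^ 2 * ρ) := by gcongr
    linarith
  set U : Set ℂ := {u : ℂ | a0 < u.re ∧ u.re < b.re ∧ |u.im - b.im| < q} with hU
  have hUo : IsOpen U := by
    apply IsOpen.inter
    · exact isOpen_lt continuous_const Complex.continuous_re
    · apply IsOpen.inter
      · exact isOpen_lt Complex.continuous_re continuous_const
      · exact isOpen_lt (Complex.continuous_im.sub continuous_const).abs continuous_const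
  have hball : ∀ τ : ℝ, |τ| ≤ δ → Metric.closedBall (b - z0 * (1 + τ)) r ⊆ U := by
    intro τ hτ u hu
    rw [mem_closedBall_iff_norm] at hu
    have h3 := (Complex.abs_re_le_norm _).trans hu
    have h4 := (Complex.abs_im_le_norm _).trans hu
    simp only [sub_re, sub_im, mul_re, mul_im, add_re, add_im, one_re, one_im, ofReal_re, ofReal_im, add_zero,
      mul_zero, sub_zero, zero_add] at h3 h4
    rw [abs_le] at h3 h4 hτ him
    have hzr1 : z0.re * (1 + τ) ≤ ρ * (1 + 2 * η) * (1 + δ) := by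
      calc z0.re * (1 + τ) ≤ z0.re * (1 + δ) := by gcongr; exact hτ.2
        _ ≤ _ := by gcongr
    have hzr2 : ρ / 2 ≤ z0.re * (1 + τ) := by
      have h5 : (39 / 40 : ℝ) ≤ 1 + τ := by linarith [hτ.1]
      calc ρ / 2 ≤ ρ * (998 / 1000) * (39 / 40) := by linarith
        _ ≤ _ := by gcongr
    have h5 : ρ * δ ≤ q / 8 := by
      have : ρ * δ ≤ ρ2 * δ := by gcongr
      linarith
    have h6 : ρ * δ * η ≤ q / 8 * (1 / 1000) := by gcongr
    have hzi : |z0.im * (1 + τ)| ≤ q / 2 := by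
      rw [abs_mul]
      have h7 : |1 + τ| ≤ 2 := by rw [abs_le]; constructor <;> linarith [hτ.1, hτ.2]
      have h8 : |z0.im| ≤ 2 * ρ * η := abs_le.2 him
      calc |z0.im| * |1 + τ| ≤ (2 * ρ * η) * 2 := by gcongr
        _ ≤ q / 2 := by linarith
    rw [abs_le] at hzi
    refine ⟨?_, ?_, ?_⟩
    · linarith [h3.1]
    · linarith [h3.2]
    · rw [abs_lt]
      constructor <;> linarith [h4.1, h4.2, hzi.1, hzi.2]
  set H : ℝ → ℂ := fun x => F (1 + x) / h (b - z0) with hH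
  have hHc : Continuous H := by
    simp only [hH]
    exact (hFc.comp (by fun_prop)).div_const _
  have hgs := (gauss_seg (a := κ) (δ := δ) hκ0 hδ hκδ (H := H) hHc.continuousOn (fun x hx => by
    obtain ⟨E, hE1, hE2⟩ := near (h := h) (b := b) (z0 := z0) (L := L) (ρ := ρ) (η := η) (r := r) (δ := δ)
      (κ := κ) (U := U) hUo hρ hLpos hκ hη hr0 hδ hδ1 hηb' hh hz0n
      (fun u hu => (hreg u hu.1.le hu.2.1.le hu.2.2.le).1)
      (fun u hu => (hreg u hu.1.le hu.2.1.le hu.2.2.le).2) hball hsad hx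
    refine ⟨E, hE1, ?_⟩
    simp only [hH, hF]
    push_cast
    rw [hE2, mul_div_cancel_left₀ _ hhz0])).1
  have hmain : ‖h (b - z0)‖ / Real.sqrt κ ≤ ‖∫ s in (1 - δ)..(1 + δ), F s‖ := by
    have e1 : ∫ x in (-δ)..δ, H x = (∫ s in (1 - δ)..(1 + δ), F s) / h (b - z0) := by
      simp only [hH]
      rw [intervalIntegral.integral_div, intervalIntegral.integral_comp_add_left (fun s => F s)]
      rfl
    rw [e1, norm_div, le_div_iff₀ hM0] at hgs
    calc _ = 1 / Real.sqrt κ * ‖h (b - z0)‖ := by ring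
      _ ≤ _ := hgs
  -- the other parts
  set T : ℝ := ‖h (b - z0)‖ * Real.exp (-(ω ^ 2 / 2 * κ)) with hT
  have hT0 : 0 < T := by positivity
  have hfar : ∀ s : ℝ, 0 < s → s ≤ S → δ ≤ |s - 1| → ‖F s‖ ≤ T := by
    intro s hs0 hsS hsδ
    have h3 := far (h := h) (b := b) (z0 := z0) (L := L) (ρ := ρ) (η := η) (S := S) (κ := κ) hLpos hκ hη hh
      hz0 hz0n (by linarith) hregs hs0 hsS
    refine h3.trans ?_
    rw [hT]
    have h4 : ω ≤ |Real.sqrt s - 1| := by
      have h5 : Real.sqrt s ≤ Real.sqrt S1 := Real.sqrt_le_sqrt (by linarith)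
      have h6 : 0 ≤ Real.sqrt s := Real.sqrt_nonneg _
      have h7 : |s - 1| = |Real.sqrt s - 1| * (Real.sqrt s + 1) := by
        have h8 : s - 1 = (Real.sqrt s - 1) * (Real.sqrt s + 1) := by
          linear_combination -(Real.sq_sqrt hs0.le)
        conv_lhs => rw [h8]
        rw [abs_mul, abs_of_nonneg (show 0 ≤ Real.sqrt s + 1 by linarith)]
      rw [hω, div_le_iff₀ (by positivity)]
      calc δ ≤ |s - 1| := hsδ
        _ = |Real.sqrt s - 1| * (Real.sqrt s + 1) := h7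
        _ ≤ _ := by gcongr
    have h5 : ω ^ 2 ≤ (Real.sqrt s - 1) ^ 2 := by
      rw [← sq_abs (Real.sqrt s - 1)]
      gcongr
    have h6 : |s - 1| ≤ S1 := by
      rw [abs_le]
      constructor <;> linarith
    have h7 : 4 * η * |s - 1| ≤ ω ^ 2 / 2 := by
      calc 4 * η * |s - 1| ≤ 4 * η * S1 := by gcongr
        _ ≤ _ := by linarith
    gcongr
    have h8 : (κ : ℝ) * (-(Real.sqrt s - 1) ^ 2 + 4 * η * |s - 1|) ≤ κ * (-(ω ^ 2 / 2)) := by
      gcongr
      linarith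
    linarith
  -- smallness of T
  have hsq : 0 < Real.sqrt κ := Real.sqrt_pos.2 hκ0
  have hTsmall : T * S1 ≤ ‖h (b - z0)‖ / (2 * Real.sqrt κ) := by
    have h3 := hK0 κ (by
      rw [hκ]
      calc K0 ≤ L * ρ1 := hLb
        _ ≤ L * ρ := by gcongr
        _ = ρ * L := by ring)
    rw [le_div_iff₀ (by positivity), hT]
    calc ‖h (b - z0)‖ * Real.exp (-(ω ^ 2 / 2 * κ)) * S1 * (2 * Real.sqrt κ) =
        ‖h (b - z0)‖ * (2 * S1 * Real.sqrt κ * Real.exp (-(ω ^ 2 / 2 * κ))) := by ring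
      _ ≤ ‖h (b - z0)‖ * 1 := by gcongr
      _ = _ := mul_one _
  have hhalf : 2 * (‖h (b - z0)‖ / (2 * Real.sqrt κ)) = ‖h (b - z0)‖ / Real.sqrt κ := by
    field_simp
  exact assemble hFc hδ hδ1 hSge hSle hT0 (hhalf.le.trans hmain) hfar hTsmall

end Pool.Agent.Helper85.DQ
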