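import Pool.Agent.Helper85.DQ.Sad

/-!
Horizontal saddle point (piece of the derivatives-of-xi packages of helper85 / helper75).

`h` is entire and on the rectangle `a0 ≤ Re u ≤ Re b`, `|Im u - Im b| ≤ q` zero-free with
`logDeriv h = L (1 + O(η))`.  The integral of `h (b - z) z ^ κ` over a straight segment `z = z0 s`,
`0 ≤ s ≤ S`, through the saddle `z0` is bounded below.

`seg`, `pow_expand`, `ev_small` are copies of lemmas of helper85 (LG/Sad.lean, DQ/Vert.lean), kept here so that
the file has a small import closure.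
-/

set_option autoImplicit false
set_option maxHeartbeats 2000000

open Complex Filter Topology Set MeasureTheory

namespace Pool.Agent.Helper4.Hor

/-- exponential form along a vertical segment -/
lemma seg {f : ℂ → ℂ} {s : ℂ} {T B : ℝ} (hB : 0 ≤ B) (hT : 0 < T) (hf : Differentiable ℂ f)
    (hne : ∀ τ : ℝ, |τ| ≤ T → f (s + τ * I) ≠ 0)
    (hl : ∀ τ : ℝ, |τ| ≤ T → ‖logDeriv f (s + τ * I) - logDeriv f s‖ ≤ B * |τ|) (v : ℝ) (hv : |v| ≤ T) :
    ∃ R : ℂ, ‖R‖ ≤ B * v ^ 2 ∧ f (s + v * I) = f s * cexp (I * v * logDeriv f s + R) := by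
  set P : ℝ → ℝ := fun τ => max (-T) (min T τ) with hP
  have hPc : Continuous P := by rw [hP]; fun_prop
  have hPT : ∀ τ, |P τ| ≤ T := fun τ => by
    rw [hP, abs_le]
    exact ⟨le_max_left _ _, max_le (by linarith) (min_le_left _ _)⟩
  have hPe : ∀ τ, |τ| ≤ T → P τ = τ := fun τ hτ => by
    rw [abs_le] at hτ
    simp only [hP]
    rw [min_eq_right hτ.2, max_eq_right hτ.1]
  set c : ℝ → ℂ := fun τ => I * (logDeriv f (s + (P τ : ℝ) * I) - logDeriv f s) with hc
  have hlc : Continuous (fun τ : ℝ => logDeriv f (s + (P τ : ℝ) * I)) := by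
    have hd : Continuous (deriv f) := (hf.contDiff (n := 1)).continuous_deriv le_rfl
    have e : (fun τ : ℝ => logDeriv f (s + (P τ : ℝ) * I)) =
        fun τ : ℝ => deriv f (s + (P τ : ℝ) * I) / f (s + (P τ : ℝ) * I) := by
      funext τ; rw [logDeriv_apply]
    rw [e]
    exact (hd.comp (by fun_prop)).div (hf.continuous.comp (by fun_prop)) (fun τ => hne _ (hPT τ))
  have hcc : Continuous c := by
    rw [hc]
    exact continuous_const.mul (hlc.sub continuous_const)
  set R : ℝ → ℂ := fun v => ∫ τ in (0 : ℝ)..v, c τ with hR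
  have hRd : ∀ v : ℝ, HasDerivAt R (c v) v := fun v =>
    intervalIntegral.integral_hasDerivAt_right (hcc.intervalIntegrable _ _)
      (hcc.stronglyMeasurableAtFilter _ _) hcc.continuousAt
  refine ⟨R v, ?_, ?_⟩
  · have h1 := intervalIntegral.norm_integral_le_of_norm_le_const (a := 0) (b := v) (f := c)
      (C := B * |v|) ?_
    · refine h1.trans (le_of_eq ?_)
      rw [sub_zero, mul_assoc, ← sq, sq_abs]
    · intro τ hτ
      have hτv : |τ| ≤ |v| := by
        rcases le_total 0 v with h0 | h0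
        · rw [uIoc_of_le h0] at hτ
          rw [abs_of_pos hτ.1, abs_of_nonneg h0]
          exact hτ.2
        · rw [uIoc_of_ge h0] at hτ
          rw [abs_of_nonpos hτ.2, abs_of_nonpos h0]
          linarith [hτ.1]
      simp only [hc]
      rw [norm_mul, norm_I, one_mul, hPe τ (hτv.trans hv)]
      refine (hl τ (hτv.trans hv)).trans ?_
      exact mul_le_mul_of_nonneg_left hτv hB
  · set φ : ℝ → ℂ := fun v => f (s + v * I) * cexp (-(I * v * logDeriv f s + R v)) with hφ
    have hφd : ∀ v : ℝ, |v| ≤ T → HasDerivAt φ 0 v := by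
      intro v hv
      have h1 : HasDerivAt (fun w : ℂ => f (s + w * I)) (deriv f (s + v * I) * I) (v : ℂ) := by
        have h2 : HasDerivAt (fun w : ℂ => s + w * I) I (v : ℂ) := by
          have := ((hasDerivAt_id (v : ℂ)).mul_const I).const_add s
          simpa using this
        exact HasDerivAt.comp (v : ℂ) (hf (s + v * I)).hasDerivAt h2
      have h3 := h1.comp_ofReal
      have h4 : HasDerivAt (fun v : ℝ => -(I * v * logDeriv f s + R v)) (-(I * logDeriv f s + c v)) v := by
        have h5 : HasDerivAt (fun v : ℝ => I * v * logDeriv f s) (I * logDeriv f s) v := by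
          have := ((Complex.ofRealCLM.hasDerivAt (x := v)).const_mul I).mul_const (logDeriv f s)
          simpa using this
        exact (h5.add (hRd v)).neg
      have h6 := h3.mul h4.cexp
      refine h6.congr_deriv ?_
      simp only [hc]
      rw [hPe v hv, logDeriv_apply f (s + v * I)]
      have := hne v hv
      field_simp
      ring
    have hconst : φ v = φ 0 := by
      have h := (convex_Icc (-T) T).norm_image_sub_le_of_norm_hasDerivWithin_le (f := φ)
        (f' := fun _ => 0) (C := 0) (x := 0) (y := v)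
        (fun u hu => (hφd u (abs_le.2 hu)).hasDerivWithinAt) (fun u _ => by simp)
        ⟨by linarith, by linarith⟩ (abs_le.1 hv)
      rw [zero_mul] at h
      exact sub_eq_zero.1 (norm_le_zero_iff.1 h)
    simp only [hφ] at hconst
    have hR0 : R 0 = 0 := by simp [hR]
    rw [hR0] at hconst
    simp only [ofReal_zero, zero_mul, mul_zero, add_zero, neg_zero, Complex.exp_zero, mul_one] at hconst
    rw [← hconst, Complex.exp_neg]
    have := Complex.exp_ne_zero (I * v * logDeriv f s + R v)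
    field_simp

/-- expansion of `(1 + x) ^ κ` -/
lemma pow_expand {x : ℂ} (hx : ‖x‖ ≤ 1 / 2) (κ : ℕ) :
    ∃ R : ℂ, ‖R‖ ≤ κ * ‖x‖ ^ 3 ∧ (1 + x) ^ κ = cexp (κ * (x - x ^ 2 / 2) + R) := by
  have hx1 : ‖x‖ < 1 := by linarith
  have h1 := Complex.norm_log_sub_logTaylor_le 2 hx1
  have h2 : logTaylor (2 + 1) x = x - x ^ 2 / 2 := by
    simp [logTaylor, Finset.sum_range_succ]
    ring
  rw [h2] at h1
  have hne : (1 + x : ℂ) ≠ 0 := by
    intro h0
    have : x = -1 := by linear_combination h0
    rw [this] at hx1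
    simp at hx1
  refine ⟨κ * (log (1 + x) - (x - x ^ 2 / 2)), ?_, ?_⟩
  · rw [norm_mul, Complex.norm_natCast]
    apply mul_le_mul_of_nonneg_left _ (Nat.cast_nonneg _)
    refine h1.trans ?_
    have h3 : (1 - ‖x‖)⁻¹ ≤ 2 := by
      rw [inv_le_comm₀ (by linarith) (by norm_num)]
      linarith
    have h4 : 0 ≤ ‖x‖ ^ 3 := by positivity
    norm_num
    calc ‖x‖ ^ 3 * (1 - ‖x‖)⁻¹ / 3 ≤ ‖x‖ ^ 3 * 2 / 3 := by gcongr
      _ ≤ ‖x‖ ^ 3 := by linarith
  · have : (κ * (x - x ^ 2 / 2) + κ * (log (1 + x) - (x - x ^ 2 / 2)) : ℂ) = κ * log (1 + x) := by ring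
    rw [this, Complex.exp_nat_mul, Complex.exp_log hne]

lemma ev_small {c K ε : ℝ} (hc : 0 < c) (hε : 0 < ε) :
    ∃ L0 : ℝ, 1 ≤ L0 ∧ ∀ L : ℝ, L0 ≤ L → K * Real.sqrt L * Real.exp (-(c * L)) ≤ ε := by
  have h1 : Tendsto (fun L : ℝ => L ^ (1 / 2 : ℝ) * Real.exp (-(c * L))) atTop (𝓝 0) := by
    have := tendsto_rpow_mul_exp_neg_mul_atTop_nhds_zero (1 / 2) c hc
    simpa [neg_mul] using this
  have h2 : Tendsto (fun L : ℝ => K * Real.sqrt L * Real.exp (-(c * L))) atTop (𝓝 0) := by
    have := h1.const_mul K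
    rw [mul_zero] at this
    refine this.congr fun L => ?_
    rw [Real.sqrt_eq_rpow]
    ring
  have h3 := (h2.eventually (eventually_le_nhds hε)).and (eventually_ge_atTop 1)
  obtain ⟨L0, hL0⟩ := eventually_atTop.1 h3
  exact ⟨max L0 1, le_max_right _ _, fun L hL => (hL0 L ((le_max_left _ _).trans hL)).1⟩


end Pool.Agent.Helper4.Hor
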